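import Pool.Agent.H75.RW.Targets

/-! Row AVC of rwd_modules: averages and numbers. -/

set_option autoImplicit false

open List Pool.Agent.H68.TG Pool.Agent.H75.RW

namespace Pool.Agent.H37.RW

private theorem fin_len (N : ℕ) (p : List (Fin 3) → Prop) :
    {w : List (Fin 3) | w.length = N ∧ p w}.Finite :=
  (List.finite_length_eq (Fin 3) N).subset fun _ h => h.1

theorem pf_AVC : T_AVC := by
  intro N
  induction N with
  | zero =>
    intro p
    by_cases h : p []
    · have e : {w : List (Fin 3) | w.length = 0 ∧ p w} = {[]} := by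
        ext w
        constructor
        · rintro ⟨h1, -⟩
          exact List.length_eq_zero_iff.1 h1
        · rintro h1
          have h1' : w = [] := h1
          subst h1'
          exact ⟨rfl, h⟩
      rw [e, Set.ncard_singleton]
      simp [avg, ind_of _ h]
    · have e : {w : List (Fin 3) | w.length = 0 ∧ p w} = ∅ := by
        ext w
        constructor
        · rintro ⟨h1, h2⟩
          have h1' := List.length_eq_zero_iff.1 h1
          subst h1'
          exact absurd h2 h
        · exact fun h1 => h1.elim
      rw [e, Set.ncard_empty]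
      simp [avg, ind_not _ h]
  | succ N ih =>
    intro p
    set S : Fin 3 → Set (List (Fin 3)) := fun c => {w | w.length = N ∧ p (c :: w)} with hS
    have hfin : ∀ c, (S c).Finite := fun c => fin_len N fun w => p (c :: w)
    have e : {w : List (Fin 3) | w.length = N + 1 ∧ p w} =
        (List.cons 0 '' S 0 ∪ List.cons 1 '' S 1) ∪ List.cons 2 '' S 2 := by
      ext w
      constructor
      · rintro ⟨h1, h2⟩
        cases w with
        | nil => simp at h1
        | cons c w =>
          have h3 : w.length = N := by simpa using h1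
          have hw : w ∈ S c := ⟨h3, h2⟩
          fin_cases c
          · exact Or.inl (Or.inl ⟨w, hw, rfl⟩)
          · exact Or.inl (Or.inr ⟨w, hw, rfl⟩)
          · exact Or.inr ⟨w, hw, rfl⟩
      · rintro ((⟨v, hv, rfl⟩ | ⟨v, hv, rfl⟩) | ⟨v, hv, rfl⟩)
        · exact ⟨by simp [hv.1], hv.2⟩
        · exact ⟨by simp [hv.1], hv.2⟩
        · exact ⟨by simp [hv.1], hv.2⟩
    have d1 : Disjoint (List.cons (0 : Fin 3) '' S 0) (List.cons 1 '' S 1) := by
      rw [Set.disjoint_left]
      rintro _ ⟨a, -, rfl⟩ ⟨b, -, hb⟩
      exact absurd (List.cons.inj hb).1 (by decide)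
    have d2 : Disjoint (List.cons (0 : Fin 3) '' S 0 ∪ List.cons 1 '' S 1)
        (List.cons 2 '' S 2) := by
      rw [Set.disjoint_left]
      rintro _ (⟨a, -, rfl⟩ | ⟨a, -, rfl⟩) ⟨b, -, hb⟩
      · exact absurd (List.cons.inj hb).1 (by decide)
      · exact absurd (List.cons.inj hb).1 (by decide)
    have hn : ∀ c : Fin 3, (List.cons c '' S c).ncard = (S c).ncard := fun c =>
      Set.ncard_image_of_injective _ List.cons_injective
    rw [e, Set.ncard_union_eq d2 (((hfin 0).image _).union ((hfin 1).image _))
      ((hfin 2).image _), Set.ncard_union_eq d1 ((hfin 0).image _) ((hfin 1).image _),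
      hn, hn, hn]
    have i0 := ih (fun w => p (0 :: w))
    have i1 := ih (fun w => p (1 :: w))
    have i2 := ih (fun w => p (2 :: w))
    push_cast
    have j0 : ((S 0).ncard : ℝ) = 3 ^ N * avg N (fun w => ind (p (0 :: w))) := i0
    have j1 : ((S 1).ncard : ℝ) = 3 ^ N * avg N (fun w => ind (p (1 :: w))) := i1
    have j2 : ((S 2).ncard : ℝ) = 3 ^ N * avg N (fun w => ind (p (2 :: w))) := i2
    rw [j0, j1, j2]
    simp only [avg]
    ring

end Pool.Agent.H37.RW
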