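import Pool.Agent.H75.RW.Targets

/-! Row CNB of rwd_modules: the number of short words with few blocks. -/

set_option autoImplicit false

open List Pool.Agent.H68.TG Pool.Agent.H75.RW

namespace Pool.Agent.H37.RW

private theorem dd_len (y : ℕ) : (dd y).length = 2 * y := by
  induction y with
  | zero => rfl
  | succ y ih => simp [dd] at ih ⊢; omega

private theorem blocks (M b : ℕ) : ∃ K : Finset (List (Fin 3)),
    K.card ≤ ((M + 2) * (M + 2)) ^ b ∧
    ∀ l : List (ℕ × ℕ), l.length ≤ b → (prodb l).length ≤ M + 1 → prodb l ∈ K := by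
  induction b with
  | zero =>
    refine ⟨{[]}, by simp, fun l hl _ => ?_⟩
    have : l = [] := List.length_eq_zero_iff.1 (by omega)
    subst this
    simp [prodb]
  | succ b ih =>
    obtain ⟨K, hK, hm⟩ := ih
    refine ⟨Finset.image (fun q : (ℕ × ℕ) × List (Fin 3) =>
      replicate q.1.1 0 ++ dd q.1.2 ++ q.2)
      ((Finset.range (M + 2) ×ˢ Finset.range (M + 2)) ×ˢ K), ?_, ?_⟩
    · refine Finset.card_image_le.trans ?_
      rw [Finset.card_product, Finset.card_product, Finset.card_range, pow_succ, mul_comm]
      exact Nat.mul_le_mul_right _ hK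
    · intro l hl hlen
      cases l with
      | nil =>
        have h0 : ([] : List (Fin 3)) ∈ K := by
          have := hm [] (by simp) (by simp [prodb])
          simpa [prodb] using this
        refine Finset.mem_image.2 ⟨((0, 0), []), ?_, ?_⟩
        · simp [h0]
        · simp [prodb, dd]
      | cons q l =>
        have e : prodb (q :: l) = replicate q.1 0 ++ dd q.2 ++ prodb l := by
          simp [prodb]
        rw [e] at hlen ⊢
        rw [length_append, length_append, length_replicate, dd_len] at hlen
        refine Finset.mem_image.2 ⟨((q.1, q.2), prodb l), ?_, rfl⟩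
        rw [Finset.mem_product, Finset.mem_product, Finset.mem_range, Finset.mem_range]
        refine ⟨⟨?_, ?_⟩, hm l ?_ ?_⟩
        · change q.1 < M + 2; omega
        · change q.2 < M + 2; omega
        · simp at hl; omega
        · omega

theorem pf_CNB : T_CNB := by
  intro M B hB
  obtain ⟨K, hK, hm⟩ := blocks M ⌊B⌋₊
  refine ⟨K ∪ K.image List.tail, ?_, ?_⟩
  · rintro u ⟨l, hl, hu⟩ hlen
    have hb : l.length ≤ ⌊B⌋₊ := Nat.le_floor hl
    rcases hu with rfl | rfl
    · exact Finset.mem_union_left _ (hm l hb (by omega))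
    · refine Finset.mem_union_right _ (Finset.mem_image.2 ⟨prodb l, hm l hb ?_, rfl⟩)
      rw [length_tail] at hlen
      omega
  · have h1 : (K ∪ K.image List.tail).card ≤ 2 * ((M + 2) * (M + 2)) ^ ⌊B⌋₊ := by
      refine (Finset.card_union_le _ _).trans ?_
      have := Finset.card_image_le (s := K) (f := List.tail)
      omega
    have h2 : (((K ∪ K.image List.tail).card : ℕ) : ℝ) ≤
        2 * (((M : ℝ) + 2) * (M + 2)) ^ ⌊B⌋₊ := by exact_mod_cast h1
    refine h2.trans (mul_le_mul_of_nonneg_left ?_ (by norm_num))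
    have h3 : (((M : ℝ) + 2) * (M + 2)) ^ ⌊B⌋₊ = ((M : ℝ) + 2) ^ ((2 * ⌊B⌋₊ : ℕ) : ℝ) := by
      rw [Real.rpow_natCast, pow_mul, pow_two]
    rw [h3]
    apply Real.rpow_le_rpow_of_exponent_le
    · have : (0 : ℝ) ≤ M := Nat.cast_nonneg M
      linarith
    · push_cast
      have := Nat.floor_le hB
      linarith

end Pool.Agent.H37.RW
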