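import Pool.Agent.H75.RW.Targets

/-! Row GAP of rwd_modules: the inequality of Poincare for the vector of states. -/

set_option autoImplicit false

open List Pool.Agent.H68.TG Pool.Agent.H75.RW

namespace Pool.Agent.H37.RW

private theorem Q_nonneg (t : ℕ) (w : List Bool) (f : V t → ℝ) : 0 ≤ Q t w f :=
  Finset.sum_nonneg fun _ _ => sq_nonneg _

private theorem Q_sub (t : ℕ) (w : List Bool) (f : V t → ℝ) (m : ℝ) :
    Q t w (fun σ => f σ - m) = Q t w f := by
  unfold Q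
  refine Finset.sum_congr rfl fun σ _ => ?_
  ring

theorem pf_GAP : T_GAP := by
  intro t
  induction t with
  | zero =>
    intro f h
    have e : ∀ g : V 0 → ℝ, ∑ σ, g σ = g () := by
      intro g
      have h1 : ∑ σ : V 0, g σ = ∑ σ : Unit, g σ := rfl
      rw [h1, Fintype.sum_unique]
    rw [e] at h
    rw [e (fun σ => f σ ^ 2), h]
    have h1 := Q_nonneg 0 [false] f
    have h2 := Q_nonneg 0 [true] f
    norm_num
    linarith
  | succ t ih =>
    intro f h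
    set g : V t → ℝ := fun ρ => f (false, ρ) with hg
    set k : V t → ℝ := fun ρ => f (true, ρ) with hk
    set m : ℝ := (∑ ρ, g ρ) / 2 ^ t with hm
    have hc : ((Fintype.card (V t) : ℕ) : ℝ) = 2 ^ t := by rw [cardV]; push_cast; rfl
    have h2 : (0 : ℝ) < 2 ^ t := by positivity
    have hgm : ∑ ρ, g ρ = 2 ^ t * m := by rw [hm]; field_simp
    have hs : ∑ ρ, g ρ + ∑ ρ, k ρ = 0 := by rw [← h, sumV]
    have hx : (1 : ℝ) ≤ (9 / 2) ^ t := one_le_pow₀ (by norm_num)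
    -- (1)
    have h1 : ∑ ρ, (g ρ - m) ^ 2 ≤
        4 * (9 / 2) ^ t * Q t [false] g + 8 / 3 * (9 / 2) ^ t * Q t [true] g := by
      have := ih (fun ρ => g ρ - m) (by
        rw [Finset.sum_sub_distrib, Finset.sum_const, Finset.card_univ, nsmul_eq_mul, hc, hgm]
        ring)
      rwa [Q_sub, Q_sub] at this
    -- the two energies
    have hQD : Q (t + 1) [true] f = ∑ ρ, (g ρ - g (ms t [false] ρ)) ^ 2 +
        ∑ ρ, (k ρ - k (ms t [false, false, false] ρ)) ^ 2 := by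
      unfold Q
      rw [sumV]
      simp only [ms_tf, ms_tt]
      rfl
    have hQA : Q (t + 1) [false] f = ∑ ρ, (g ρ - k (ms t [true] ρ)) ^ 2 +
        ∑ ρ, (k ρ - g ρ) ^ 2 := by
      unfold Q
      rw [sumV]
      simp only [ms_ff, ms_ft]
      rfl
    -- (2)
    have hb : Q t [false] g ≤ Q (t + 1) [true] f := by
      rw [hQD]
      have : 0 ≤ ∑ ρ, (k ρ - k (ms t [false, false, false] ρ)) ^ 2 :=
        Finset.sum_nonneg fun _ _ => sq_nonneg _
      unfold Q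
      linarith
    -- (3)
    have hd : Q t [true] g ≤ 2 * Q (t + 1) [false] f := by
      have e1 : Q t [true] g ≤ ∑ ρ, (2 * (g ρ - k (ms t [true] ρ)) ^ 2 +
          2 * (k (ms t [true] ρ) - g (ms t [true] ρ)) ^ 2) := by
        unfold Q
        refine Finset.sum_le_sum fun ρ _ => ?_
        nlinarith [sq_nonneg ((g ρ - k (ms t [true] ρ)) - (k (ms t [true] ρ) - g (ms t [true] ρ)))]
      rw [Finset.sum_add_distrib, ← Finset.mul_sum, ← Finset.mul_sum,
        sum_ms t [true] (fun ρ => (k ρ - g ρ) ^ 2)] at e1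
      rw [hQA]
      linarith
    -- (4)
    have hf : ∑ σ, f σ ^ 2 ≤ 3 * ∑ ρ, (g ρ - m) ^ 2 + 2 * ∑ ρ, (k ρ - g ρ) ^ 2 := by
      rw [sumV]
      have e1 : ∑ ρ, (g ρ - m) ^ 2 = ∑ ρ, g ρ ^ 2 - 2 * m * ∑ ρ, g ρ + 2 ^ t * m ^ 2 := by
        rw [← hc, Finset.mul_sum, ← nsmul_eq_mul, ← Finset.card_univ, ← Finset.sum_const,
          ← Finset.sum_sub_distrib, ← Finset.sum_add_distrib]
        exact Finset.sum_congr rfl fun ρ _ => by ring
      have e2 : ∑ ρ, (k ρ - m) ^ 2 = ∑ ρ, k ρ ^ 2 - 2 * m * ∑ ρ, k ρ + 2 ^ t * m ^ 2 := by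
        rw [← hc, Finset.mul_sum, ← nsmul_eq_mul, ← Finset.card_univ, ← Finset.sum_const,
          ← Finset.sum_sub_distrib, ← Finset.sum_add_distrib]
        exact Finset.sum_congr rfl fun ρ _ => by ring
      have e3 : ∑ ρ, (k ρ - m) ^ 2 ≤ ∑ ρ, (2 * (g ρ - m) ^ 2 + 2 * (k ρ - g ρ) ^ 2) := by
        refine Finset.sum_le_sum fun ρ _ => ?_
        nlinarith [sq_nonneg ((g ρ - m) - (k ρ - g ρ))]
      rw [Finset.sum_add_distrib, ← Finset.mul_sum, ← Finset.mul_sum] at e3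
      have e4 : 0 ≤ 2 ^ t * m ^ 2 := by positivity
      have e5 : 2 * m * ∑ ρ, g ρ + 2 * m * ∑ ρ, k ρ = 0 := by
        rw [← mul_add, hs, mul_zero]
      change ∑ ρ, g ρ ^ 2 + ∑ ρ, k ρ ^ 2 ≤ _
      linarith
    have hA : ∑ ρ, (k ρ - g ρ) ^ 2 ≤ Q (t + 1) [false] f := by
      rw [hQA]
      have : 0 ≤ ∑ ρ, (g ρ - k (ms t [true] ρ)) ^ 2 := Finset.sum_nonneg fun _ _ => sq_nonneg _
      linarith
    have hQA0 := Q_nonneg (t + 1) [false] f
    set x : ℝ := (9 / 2) ^ t with hxd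
    have hp : (9 / 2 : ℝ) ^ (t + 1) = x * (9 / 2) := by rw [pow_succ]
    rw [hp]
    have i1 : 4 * x * Q t [false] g ≤ 4 * x * Q (t + 1) [true] f :=
      mul_le_mul_of_nonneg_left hb (by linarith)
    have i2 : 8 / 3 * x * Q t [true] g ≤ 8 / 3 * x * (2 * Q (t + 1) [false] f) :=
      mul_le_mul_of_nonneg_left hd (by linarith)
    have i3 : Q (t + 1) [false] f ≤ x * Q (t + 1) [false] f := le_mul_of_one_le_left hQA0 hx
    nlinarith

end Pool.Agent.H37.RW
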