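import Pool.Agent.H75.RW.Targets

/-! Row KER of rwd_modules: the law of the state vector after a long random word. -/

set_option autoImplicit false

open List Pool.Agent.H68.TG Pool.Agent.H75.RW

namespace Pool.Agent.H37.RW

private theorem P_add (T : ℕ) (f g : V T → ℝ) :
    P T (fun σ => f σ + g σ) = fun σ => P T f σ + P T g σ := by
  funext σ
  simp only [P]
  ring

private theorem Pit_add (T n : ℕ) : ∀ f g : V T → ℝ,
    (P T)^[n] (fun σ => f σ + g σ) = fun σ => (P T)^[n] f σ + (P T)^[n] g σ := by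
  induction n with
  | zero => intro f g; rfl
  | succ n ih =>
    intro f g
    rw [Function.iterate_succ_apply, P_add, ih, Function.iterate_succ_apply,
      Function.iterate_succ_apply]

private theorem Pit_const (T n : ℕ) (c : ℝ) : (P T)^[n] (fun _ => c) = fun _ => c := by
  induction n with
  | zero => rfl
  | succ n ih =>
    have h : P T (fun _ => c) = fun _ => c := by
      funext σ
      simp only [P]
      ring
    rw [Function.iterate_succ_apply, h, ih]

private theorem Pit_chi (hCHI : T_CHI) (t n : ℕ) : ∀ c : ℝ,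
    (P (t + 2))^[n] (fun σ => c * chi t σ) = fun σ => (-1) ^ n * c * chi t σ := by
  induction n with
  | zero => intro c; funext σ; simp
  | succ n ih =>
    intro c
    have h : P (t + 2) (fun σ => c * chi t σ) = fun σ => (-c) * chi t σ := by
      funext σ
      simp only [P, (hCHI t).2.2.2.2]
      ring
    rw [Function.iterate_succ_apply, h, ih]
    funext σ
    ring

theorem pf_KER (hITC : T_ITC) (hCHI : T_CHI) : T_KER := by
  intro t n σ τ hn
  obtain ⟨c1, c2, -, -, -⟩ := hCHI t
  have hP := avg_P (t + 2) n (fun s => ind (s = τ)) σ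
  rw [hP]
  have hcard : ((Fintype.card (V (t + 2)) : ℕ) : ℝ) = 2 ^ (t + 2) := by
    rw [cardV]; push_cast; rfl
  set c : ℝ := 1 / 2 ^ (t + 2) with hc
  have h2 : (0 : ℝ) < 2 ^ (t + 2) := by positivity
  have hc0 : 0 < c := by positivity
  have hc2 : c * 2 ^ (t + 2) = 1 := by rw [hc]; field_simp
  have hone : ∑ _s : V (t + 2), (1 : ℝ) = 2 ^ (t + 2) := by
    rw [Finset.sum_const, Finset.card_univ, nsmul_eq_mul, hcard, mul_one]
  have hchi2 : ∑ s, chi t s ^ 2 = 2 ^ (t + 2) := by
    rw [← hone]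
    exact Finset.sum_congr rfl fun s _ => c1 s
  have hd : ∀ g : V (t + 2) → ℝ, ∑ s, g s * ind (s = τ) = g τ := by
    intro g
    rw [Finset.sum_eq_single τ]
    · rw [ind_of _ rfl, mul_one]
    · intro s _ hs
      rw [ind_not _ hs, mul_zero]
    · intro h; exact absurd (Finset.mem_univ _) h
  have hd1 : ∑ s : V (t + 2), ind (s = τ) = 1 := by
    have := hd (fun _ => 1)
    simpa using this
  have hd2 : ∀ s : V (t + 2), ind (s = τ) ^ 2 = 1 * ind (s = τ) := by
    intro s
    by_cases h : s = τ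
    · rw [ind_of _ h]; norm_num
    · rw [ind_not _ h]; norm_num
  set f : V (t + 2) → ℝ := fun s => ind (s = τ) - c - c * chi t τ * chi t s with hf
  have s0 : ∑ s, f s = 0 := by
    have : ∑ s, f s = ∑ s : V (t + 2), ind (s = τ) - c * ∑ _s : V (t + 2), (1 : ℝ) -
        c * chi t τ * ∑ s, chi t s := by
      rw [Finset.mul_sum, Finset.mul_sum, ← Finset.sum_sub_distrib, ← Finset.sum_sub_distrib]
      exact Finset.sum_congr rfl fun s _ => by simp only [hf]; ring
    rw [this, hd1, hone, c2, hc2]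
    ring
  have s1 : ∑ s, chi t s * f s = 0 := by
    have : ∑ s, chi t s * f s = ∑ s : V (t + 2), chi t s * ind (s = τ) - c * ∑ s, chi t s -
        c * chi t τ * ∑ s, chi t s ^ 2 := by
      rw [Finset.mul_sum, Finset.mul_sum, ← Finset.sum_sub_distrib, ← Finset.sum_sub_distrib]
      exact Finset.sum_congr rfl fun s _ => by simp only [hf]; ring
    rw [this, hd, c2, hchi2]
    linear_combination (-chi t τ) * hc2
  have s2 : ∑ s, f s ^ 2 ≤ 1 := by
    have : ∑ s, f s ^ 2 = ∑ s : V (t + 2), 1 * ind (s = τ) -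
        2 * c * ∑ s : V (t + 2), 1 * ind (s = τ)
        - 2 * c * chi t τ * ∑ s : V (t + 2), chi t s * ind (s = τ)
        + c ^ 2 * ∑ _s : V (t + 2), (1 : ℝ) + 2 * c ^ 2 * chi t τ * ∑ s, chi t s
        + c ^ 2 * chi t τ ^ 2 * ∑ s, chi t s ^ 2 := by
      rw [Finset.mul_sum, Finset.mul_sum, Finset.mul_sum, Finset.mul_sum, Finset.mul_sum,
        ← Finset.sum_sub_distrib, ← Finset.sum_sub_distrib, ← Finset.sum_add_distrib,
        ← Finset.sum_add_distrib, ← Finset.sum_add_distrib]
      refine Finset.sum_congr rfl fun s _ => ?_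
      simp only [hf]
      linear_combination hd2 s
    rw [this, hd (fun _ => 1), hd (fun s => chi t s), hone, c2, hchi2, c1 τ]
    have e : chi t τ * chi t τ = 1 := by rw [← c1 τ]; ring
    have e1 : 2 * c * chi t τ * chi t τ = 2 * c := by rw [mul_assoc, e, mul_one]
    have e2 : c ^ 2 * 2 ^ (t + 2) = c := by
      rw [pow_two, mul_assoc, hc2, mul_one]
    rw [e1, e2]
    have e3 : c ^ 2 * 1 * 2 ^ (t + 2) = c := by rw [mul_one, e2]
    rw [e3]
    linarith
  -- the contraction
  have hX : (1 : ℝ) ≤ (9 / 2) ^ (t + 2) := one_le_pow₀ (by norm_num)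
  set X : ℝ := (9 / 2) ^ (t + 2) with hXd
  have hrho : rho t ^ (n / 2) ≤ c ^ 2 := by
    have hr0 : 0 ≤ rho t := by
      unfold rho
      rw [← hXd, sub_nonneg, div_le_one (by positivity)]
      linarith
    have hr1 : rho t ≤ Real.exp (-(1 / (1620 * X))) := by
      unfold rho
      exact Real.one_sub_le_exp_neg _
    have hr2 : rho t ^ (n / 2) ≤ Real.exp (-(1 / (1620 * X))) ^ (n / 2) :=
      pow_le_pow_left₀ hr0 hr1 _
    rw [← Real.exp_nat_mul] at hr2
    refine hr2.trans ?_
    have hl : Real.log 4 < 1.39 := by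
      have h4 : (4 : ℝ) = 2 ^ 2 := by norm_num
      rw [h4, Real.log_pow]
      have := Real.log_two_lt_d9
      push_cast
      linarith
    have hcc : c ^ 2 = Real.exp (-((t + 2 : ℕ) * Real.log 4)) := by
      rw [Real.exp_neg, Real.exp_nat_mul, Real.exp_log (by norm_num), hc, div_pow, one_pow,
        ← pow_mul, mul_comm, pow_mul, one_div]
      norm_num
    rw [hcc]
    apply Real.exp_le_exp.2
    have hnn : (n : ℝ) - 1 ≤ 2 * ((n / 2 : ℕ) : ℝ) := by
      have : n ≤ 2 * (n / 2) + 1 := by omega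
      have h' : (n : ℝ) ≤ 2 * ((n / 2 : ℕ) : ℝ) + 1 := by exact_mod_cast this
      linarith
    have ht : (0 : ℝ) ≤ t := Nat.cast_nonneg t
    have k1 : 3000 * X * (t + 3) - 1 ≤ ((n / 2 : ℕ) : ℝ) := by linarith
    have k2 : 1.8 * ((t : ℝ) + 3) * (1620 * X) ≤ ((n / 2 : ℕ) : ℝ) := by
      nlinarith [mul_nonneg (by linarith : (0 : ℝ) ≤ X - 1) ht]
    have k3 : 1.8 * ((t : ℝ) + 3) ≤ ((n / 2 : ℕ) : ℝ) * (1 / (1620 * X)) := by
      rw [mul_one_div, le_div_iff₀ (by positivity)]
      exact k2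
    have k4 : ((t + 2 : ℕ) : ℝ) * Real.log 4 ≤ 1.8 * ((t : ℝ) + 3) := by
      push_cast
      nlinarith
    linarith
  have hI := hITC t n f s0 s1
  have hb : ((P (t + 2))^[n] f σ) ^ 2 ≤ c ^ 2 := by
    have e1 : ((P (t + 2))^[n] f σ) ^ 2 ≤ ∑ s, ((P (t + 2))^[n] f) s ^ 2 :=
      Finset.single_le_sum (f := fun s => ((P (t + 2))^[n] f) s ^ 2)
        (fun _ _ => sq_nonneg _) (Finset.mem_univ σ)
    have e2 : rho t ^ (n / 2) * ∑ s, f s ^ 2 ≤ c ^ 2 * 1 :=
      mul_le_mul hrho s2 (Finset.sum_nonneg fun _ _ => sq_nonneg _) (by positivity)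
    linarith
  have hb' : (P (t + 2))^[n] f σ ≤ c := (abs_le_of_sq_le_sq' hb hc0.le).2
  -- the decomposition
  have hdec : (fun s : V (t + 2) => ind (s = τ)) =
      fun s => f s + (fun s => (fun _ => c) s + (fun s => (c * chi t τ) * chi t s) s) s := by
    funext s
    simp only [hf]
    ring
  rw [hdec, Pit_add, Pit_add, Pit_const, Pit_chi hCHI]
  have habs : ∀ s, |chi t s| = 1 := by
    intro s
    have := c1 s
    rw [← sq_abs] at this
    have h0 := abs_nonneg (chi t s)
    nlinarith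
  have hlast : (-1) ^ n * (c * chi t τ) * chi t σ ≤ c := by
    refine (le_abs_self _).trans ?_
    rw [abs_mul, abs_mul, abs_mul, habs, habs, abs_pow, abs_neg, abs_one, one_pow,
      abs_of_pos hc0]
    linarith
  have : (3 : ℝ) / 2 ^ (t + 2) = 3 * c := by rw [hc]; ring
  rw [this]
  change (P (t + 2))^[n] f σ + (c + (-1) ^ n * (c * chi t τ) * chi t σ) ≤ 3 * c
  linarith

end Pool.Agent.H37.RW
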